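import Pool.Agent.Y116.MT.Defs

/-!
# Motivic t-structures, conservativity and intrinsic t-structures: definitions
-/

set_option autoImplicit false

open CategoryTheory Limits MonoidalCategory Pretriangulated Triangulated

namespace Pool.Agent.V1151.MTC

universe v u w

open Pool.Agent.Y116.MT

variable {C : Type u} [Category.{v} C] [Preadditive C] [HasZeroObject C] [HasShift C ℤ]
  [∀ n : ℤ, (shiftFunctor C n).Additive] [Pretriangulated C] [MonoidalCategory C]
  [SymmetricCategory C] [TensorTriangulated C]

section

variable {E : Type w} [Field E]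

/-- The cohomology `H^i(X)` of the realisation vanishes for all `i > n`. -/
def CohLE (R : Realisation C E) (n : ℤ) (X : C) : Prop :=
  ∀ i : ℤ, n < i → IsZero (R.H.obj (X⟦i⟧))

/-- The cohomology `H^i(X)` of the realisation vanishes for all `i < n`. -/
def CohGE (R : Realisation C E) (n : ℤ) (X : C) : Prop :=
  ∀ i : ℤ, i < n → IsZero (R.H.obj (X⟦i⟧))

/-- The realisation is conservative: an object with vanishing cohomology is zero. -/
def Conservative (R : Realisation C E) : Prop :=
  ∀ X : C, (∀ i : ℤ, IsZero (R.H.obj (X⟦i⟧))) → IsZero X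

/-- The realisation is t-exact. -/
def IsExact (t : TStructure C) (R : Realisation C E) : Prop :=
  ∀ X : C, (t.le 0 X → CohLE R 0 X) ∧ (t.ge 0 X → CohGE R 0 X)

/-- The t-structure is the one defined by the realisation. -/
def IsDefinedBy (t : TStructure C) (R : Realisation C E) : Prop :=
  ∀ (n : ℤ) (X : C), (t.le n X ↔ CohLE R n X) ∧ (t.ge n X ↔ CohGE R n X)

end

/-- The conditions on the realisations which are equivalent to the existence of a motivic
t-structure: `R l₀` is conservative, there are no nonzero morphisms from `X` to `Y` if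
`H^i(X) = 0` for `i > 0` and `H^i(Y) = 0` for `i < 1`, every object `X` lies in a triangle
`A ⟶ X ⟶ B ⟶ A⟦1⟧` with `H^i(A) = 0` for `i > 0` and `H^i(B) = 0` for `i < 1` (cohomology of the
realisation `R l₀`), and, if the cohomology of an object for `R l₀` vanishes in all positive (all
negative) degrees, so does the cohomology for all `R l`. -/
structure Intrinsic {Λ : Type*} {E : Λ → Type w} [∀ l, Field (E l)]
    (R : ∀ l, Realisation C (E l)) (l₀ : Λ) : Prop where
  conservative : Conservative (R l₀)
  orthogonal {X Y : C} (f : X ⟶ Y) : CohLE (R l₀) 0 X → CohGE (R l₀) 1 Y → f = 0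
  truncation (X : C) : ∃ (A B : C) (f : A ⟶ X) (g : X ⟶ B) (h : B ⟶ A⟦(1 : ℤ)⟧),
    Triangle.mk f g h ∈ distTriang C ∧ CohLE (R l₀) 0 A ∧ CohGE (R l₀) 1 B
  amplitude (l : Λ) (X : C) : (CohLE (R l₀) 0 X → CohLE (R l) 0 X) ∧
    (CohGE (R l₀) 0 X → CohGE (R l) 0 X)

end Pool.Agent.V1151.MTC
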