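import Pool.Agent.Y116.MT.Mot
import Pool.Agent.V1151.MTC.Defs

/-!
# Motivic t-structures, conservativity and intrinsic t-structures
-/

set_option autoImplicit false
set_option linter.unusedSectionVars false
set_option backward.isDefEq.respectTransparency false
set_option backward.defeqAttrib.useBackward true

open CategoryTheory Limits MonoidalCategory Pretriangulated Triangulated

namespace Pool.Agent.V1151.MTC

universe v u w

open Pool.Agent.Y116.MT

variable {C : Type u} [Category.{v} C] [Preadditive C] [HasZeroObject C] [HasShift C ℤ]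
  [∀ n : ℤ, (shiftFunctor C n).Additive] [Pretriangulated C] [MonoidalCategory C]
  [SymmetricCategory C] [TensorTriangulated C]

section one

variable {E : Type w} [Field E] {R : Realisation C E} {t : TStructure C}

lemma CohLE.iso {X Y : C} {n : ℤ} (h : CohLE R n X) (e : X ≅ Y) : CohLE R n Y := fun i hi =>
  (h i hi).of_iso (R.H.mapIso ((shiftFunctor C i).mapIso e.symm))

lemma CohGE.iso {X Y : C} {n : ℤ} (h : CohGE R n X) (e : X ≅ Y) : CohGE R n Y := fun i hi =>
  (h i hi).of_iso (R.H.mapIso ((shiftFunctor C i).mapIso e.symm))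

lemma CohLE.shift {X : C} {n a n' : ℤ} (hn : a + n' = n) (h : CohLE R n X) :
    CohLE R n' (X⟦a⟧) := fun i hi =>
  (h (a + i) (by omega)).of_iso (R.H.mapIso ((shiftFunctorAdd C a i).app X).symm)

lemma CohGE.shift {X : C} {n a n' : ℤ} (hn : a + n' = n) (h : CohGE R n X) :
    CohGE R n' (X⟦a⟧) := fun i hi =>
  (h (a + i) (by omega)).of_iso (R.H.mapIso ((shiftFunctorAdd C a i).app X).symm)

/-- the Künneth formula: vanishing of all summands -/
lemma coh_tensor_zero {X Y : C} {n : ℤ}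
    (h : ∀ i : ℤ, IsZero (R.H.obj (X⟦i⟧)) ∨ IsZero (R.H.obj (Y⟦n - i⟧))) :
    IsZero (R.H.obj ((X ⊗ Y)⟦n⟧)) := by
  have h0 : IsZero (R.H.obj (X ⊗ Y⟦n⟧)) := by
    rw [ModuleCat.isZero_iff_subsingleton]
    have h1 : ∀ i : ℤ, Subsingleton (R.H.obj (X⟦i⟧) ⊗ R.H.obj (Y⟦n⟧⟦-i⟧) : ModuleCat.{w} E) := by
      intro i
      rcases h i with hi | hi
      · exact tensor_subsingleton_left hi
      · exact tensor_subsingleton_right (hi.of_iso
          (R.H.mapIso ((shiftFunctorAdd' C n (-i) (n - i) (by omega)).app Y).symm))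
    have h2 : Subsingleton (DirectSum ℤ (fun i : ℤ =>
        (R.H.obj (X⟦i⟧) ⊗ R.H.obj (Y⟦n⟧⟦-i⟧) : ModuleCat.{w} E))) := by
      constructor
      intro x y
      ext i
      have := h1 i
      exact Subsingleton.elim _ _
    exact (R.kunneth X (Y⟦n⟧)).2.subsingleton
  exact h0.of_iso (R.H.mapIso (rShift X Y n).symm)

lemma CohLE.tensor {X Y : C} (hX : CohLE R 0 X) (hY : CohLE R 0 Y) : CohLE R 0 (X ⊗ Y) := by
  intro n hn
  apply coh_tensor_zero
  intro i
  by_cases hi : 0 < i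
  · exact Or.inl (hX i hi)
  · exact Or.inr (hY _ (by omega))

lemma CohGE.tensor {X Y : C} (hX : CohGE R 0 X) (hY : CohGE R 0 Y) : CohGE R 0 (X ⊗ Y) := by
  intro n hn
  apply coh_tensor_zero
  intro i
  by_cases hi : i < 0
  · exact Or.inl (hX i hi)
  · exact Or.inr (hY _ (by omega))

lemma IsExact.cohLE (he : IsExact t R) {X : C} {n : ℤ} (h : t.le n X) : CohLE R n X := by
  intro i hi
  have h1 := (he _).1 (t.le_shift n n 0 (by omega) X h)
  exact (h1 (i - n) (by omega)).of_iso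
    (R.H.mapIso ((shiftFunctorAdd' C n (i - n) i (by omega)).app X))

lemma IsExact.cohGE (he : IsExact t R) {X : C} {n : ℤ} (h : t.ge n X) : CohGE R n X := by
  intro i hi
  have h1 := (he _).2 (t.ge_shift n n 0 (by omega) X h)
  exact (h1 (i - n) (by omega)).of_iso
    (R.H.mapIso ((shiftFunctorAdd' C n (i - n) i (by omega)).app X))

/-- A t-structure with an exact and conservative realisation is the one defined by it. -/
lemma isDefinedBy (he : IsExact t R) (hc : Conservative R) : IsDefinedBy t R := by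
  intro n X
  refine ⟨⟨he.cohLE, fun hX => ?_⟩, ⟨he.cohGE, fun hX => ?_⟩⟩
  · obtain ⟨A, B, hA, hB, f, g, h, hT⟩ := t.exists_triangle X n (n + 1) rfl
    have hA1 : t.IsLE A n := ⟨hA⟩
    have hBz : IsZero B := by
      apply hc
      intro i
      by_cases hi : i < n + 1
      · exact he.cohGE hB i hi
      · exact hz3 R.H hT i (hX i (by omega)) (he.cohLE hA _ (by omega))
    have h6 := isIso1_of_isZero3 hT hBz
    exact (@TStructure.isLE_of_iso _ _ _ _ _ _ _ t _ _ (asIso f) _ hA1).le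
  · obtain ⟨A, B, hA, hB, f, g, h, hT⟩ := t.exists_triangle X (n - 1) n (by omega)
    have hB1 : t.IsGE B n := ⟨hB⟩
    have hAz : IsZero A := by
      apply hc
      intro i
      by_cases hi : n - 1 < i
      · exact he.cohLE hA i hi
      · exact hz1 R.H hT i (hX i (by omega)) (he.cohGE hB _ (by omega))
    have h6 := isIso2_of_isZero1 hT hAz
    exact (@TStructure.isGE_of_iso _ _ _ _ _ _ _ t _ _ (asIso g).symm _ hB1).ge

lemma IsDefinedBy.conservative (hd : IsDefinedBy t R) : Conservative R := by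
  intro X hX
  have h1 : t.IsLE X 0 := ⟨((hd 0 X).1).2 fun i _ => hX i⟩
  have h2 : t.IsGE X 1 := ⟨((hd 1 X).2).2 fun i _ => hX i⟩
  exact t.isZero X 0 1 (by omega)

end one

variable {Λ : Type*} {E : Λ → Type w} [∀ l, Field (E l)] {R : ∀ l, Realisation C (E l)}

lemma motivic_of_exact {t : TStructure C} (he : ∀ l, IsExact t (R l)) (l₀ : Λ)
    (hc : Conservative (R l₀)) : IsMotivic t R := by
  have hd := isDefinedBy (he l₀) hc
  refine ⟨?_, ?_, ?_, ?_, ?_, ?_⟩
  · intro X hX
    exact hc X fun i => (he l₀).cohLE (hX (i - 1)) i (by omega)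
  · intro X hX
    exact hc X fun i => (he l₀).cohGE (hX (i + 1)) i (by omega)
  · intro X Y hX hY
    exact (hd 0 _).1.2 (((hd 0 X).1.1 hX).tensor ((hd 0 Y).1.1 hY))
  · intro X Y hX hY
    exact (hd 0 _).2.2 (((hd 0 X).2.1 hX).tensor ((hd 0 Y).2.1 hY))
  · intro l X hX
    exact (he l X).1 hX
  · intro l X hX
    exact (he l X).2 hX

/-- The t-structure defined by the realisation `R l₀`. -/
def Intrinsic.t {l₀ : Λ} (h : Intrinsic R l₀) : TStructure C where
  le n := fun X => CohLE (R l₀) n X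
  ge n := fun X => CohGE (R l₀) n X
  le_isClosedUnderIsomorphisms n := ⟨fun e hX => CohLE.iso hX e⟩
  ge_isClosedUnderIsomorphisms n := ⟨fun e hX => CohGE.iso hX e⟩
  le_shift _ _ _ hn _ hX := CohLE.shift hn hX
  ge_shift _ _ _ hn _ hX := CohGE.shift hn hX
  zero' _ _ f hX hY := h.orthogonal f hX hY
  le_zero_le := fun _ hX i hi => hX i (by omega)
  ge_one_le := fun _ hX i hi => hX i (by omega)
  exists_triangle_zero_one X := by
    obtain ⟨A, B, f, g, k, hT, hA, hB⟩ := h.truncation X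
    exact ⟨A, B, hA, hB, f, g, k, hT⟩

lemma mot_exact {t : TStructure C} (h : IsMotivic t R) (l : Λ) : IsExact t (R l) :=
  fun X => ⟨fun hX => h.exact_le l X hX, fun hX => h.exact_ge l X hX⟩

section rigid

variable [MonoidalPreadditive C] [RightRigidCategory C] [IsTriangulated C]

lemma mot_conservative {t : TStructure C} (h : IsMotivic t R)
    (hid : ∀ e : 𝟙_ C ⟶ 𝟙_ C, e ≫ e = e → e = 0 ∨ e = 𝟙 _) (l : Λ) : Conservative (R l) := by
  have ht : TensorCompat t := ⟨h.tensor_le, h.tensor_ge⟩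
  have hu : Hrt t (𝟙_ C) := unit_hrt ht h.nondeg_le h.nondeg_ge
  have he : TExact t (R l) := ⟨h.exact_le l, h.exact_ge l⟩
  exact fun X hX => Pool.Agent.Y116.MT.conservative ht he hu hid h.nondeg_le h.nondeg_ge hX

theorem main (R : ∀ l, Realisation C (E l)) (l₀ : Λ)
    (hid : ∀ e : 𝟙_ C ⟶ 𝟙_ C, e ≫ e = e → e = 0 ∨ e = 𝟙 _) :
    List.TFAE [∃ t : TStructure C, IsMotivic t R,
      ∃ t : TStructure C, (∀ l, IsExact t (R l)) ∧ Conservative (R l₀),
      ∃ t : TStructure C, ∀ l, IsDefinedBy t (R l),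
      Intrinsic R l₀] := by
  tfae_have 2 → 1 := fun ⟨t, he, hc⟩ => ⟨t, motivic_of_exact he l₀ hc⟩
  tfae_have 1 → 3 := fun ⟨t, h⟩ => ⟨t, fun l => isDefinedBy (mot_exact h l) (mot_conservative h hid l)⟩
  tfae_have 3 → 4 := by
    rintro ⟨t, h⟩
    refine ⟨(h l₀).conservative, fun f hX hY => t.zero' f ((h l₀ 0 _).1.2 hX)
      ((h l₀ 1 _).2.2 hY), fun X => ?_, fun l X => ⟨fun hX => (h l 0 X).1.1 ((h l₀ 0 X).1.2 hX),
      fun hX => (h l 0 X).2.1 ((h l₀ 0 X).2.2 hX)⟩⟩
    obtain ⟨A, B, hA, hB, f, g, k, hT⟩ := t.exists_triangle_zero_one X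
    exact ⟨A, B, f, g, k, hT, (h l₀ 0 A).1.1 hA, (h l₀ 1 B).2.1 hB⟩
  tfae_have 4 → 2 := by
    intro h
    exact ⟨h.t, fun l X => ⟨fun hX => (h.amplitude l X).1 hX, fun hX => (h.amplitude l X).2 hX⟩,
      h.conservative⟩
  tfae_finish

/-- Uniqueness and boundedness. -/
theorem unique (R : ∀ l, Realisation C (E l))
    (hid : ∀ e : 𝟙_ C ⟶ 𝟙_ C, e ≫ e = e → e = 0 ∨ e = 𝟙 _) {t : TStructure C}
    (h : IsMotivic t R) : (∀ (t' : TStructure C) (l : Λ), IsExact t' (R l) →
      ∀ n : ℤ, t'.le n = t.le n ∧ t'.ge n = t.ge n) ∧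
    (Nonempty Λ → ∀ X : C, ∃ N : ℕ, t.le N X ∧ t.ge (-N) X) := by
  constructor
  · intro t' l he n
    have h1 := isDefinedBy he (mot_conservative h hid l)
    have h2 := isDefinedBy (mot_exact h l) (mot_conservative h hid l)
    constructor
    · funext X
      exact propext ((h1 n X).1.trans (h2 n X).1.symm)
    · funext X
      exact propext ((h1 n X).2.trans (h2 n X).2.symm)
  · rintro ⟨l⟩ X
    obtain ⟨N, hN⟩ := (R l).bounded X
    have h2 := isDefinedBy (mot_exact h l) (mot_conservative h hid l)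
    exact ⟨N, (h2 N X).1.2 fun i hi => hN i (by omega), (h2 (-N) X).2.2 fun i hi =>
      hN i (by omega)⟩

end rigid

end Pool.Agent.V1151.MTC
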